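import Pool.Agent.Helper93.PL.St

/-!
# Project PL, module Ite: iterated sums over `Fin k`
-/

set_option autoImplicit false

namespace Pool.Agent.Helper66.PL

open Finset

private lemma sum_snoc (k : ℕ) (N : Fin (k + 1) → ℕ) (f : (Fin (k + 1) → ℕ) → ℝ) :
    ∑ u ∈ Fintype.piFinset (fun j => range (N j)), f u =
      ∑ u ∈ Fintype.piFinset (fun j : Fin k => range (N j.castSucc)),
        ∑ v ∈ range (N (Fin.last k)), f (Fin.snoc u v) := by
  rw [← Finset.sum_product' (f := fun (u : Fin k → ℕ) (v : ℕ) => f (Fin.snoc u v))]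
  refine Finset.sum_nbij' (fun u => (Fin.init u, u (Fin.last k))) (fun p => Fin.snoc p.1 p.2)
    ?_ ?_ ?_ ?_ ?_
  · intro u hu
    rw [Fintype.mem_piFinset] at hu
    rw [Finset.mem_product, Fintype.mem_piFinset]
    exact ⟨fun j => hu j.castSucc, hu (Fin.last k)⟩
  · intro p hp
    rw [Finset.mem_product, Fintype.mem_piFinset] at hp
    rw [Fintype.mem_piFinset]
    intro j
    refine Fin.lastCases ?_ (fun j => ?_) j
    · rw [Fin.snoc_last]
      exact hp.2
    · rw [Fin.snoc_castSucc]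
      exact hp.1 j
  · intro u _
    exact Fin.snoc_init_self u
  · intro p _
    simp
  · intro u _
    show f u = f (Fin.snoc (Fin.init u) (u (Fin.last k)))
    rw [Fin.snoc_init_self]

private lemma snoc_agree (k : ℕ) (u : Fin k → ℕ) (v v' : ℕ) (j : Fin k) (i : Fin (k + 1))
    (hi : i ≤ j.castSucc) :
    (Fin.snoc u v : Fin (k + 1) → ℕ) i = (Fin.snoc u v' : Fin (k + 1) → ℕ) i := by
  revert hi
  refine Fin.lastCases (fun h => ?_) (fun i' _ => ?_) i
  · exact absurd (lt_of_le_of_lt h (Fin.castSucc_lt_last j)) (lt_irrefl _)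
  · rw [Fin.snoc_castSucc, Fin.snoc_castSucc]

private lemma dep_snoc {k : ℕ} (T : Fin (k + 1) → (Fin (k + 1) → ℕ) → ℝ)
    (hT : ∀ j u u', (∀ i, i ≤ j → u i = u' i) → T j u = T j u') (j : Fin k) (u u' : Fin k → ℕ)
    (h : ∀ i, i ≤ j → u i = u' i) (v v' : ℕ) :
    T j.castSucc (Fin.snoc u v) = T j.castSucc (Fin.snoc u' v') := by
  apply hT
  intro i hi
  rw [snoc_agree k u v v' j i hi]
  revert hi
  refine Fin.lastCases (fun _ => ?_) (fun i' hi => ?_) i
  · rw [Fin.snoc_last, Fin.snoc_last]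
  · rw [Fin.snoc_castSucc, Fin.snoc_castSucc]
    exact h i' (Fin.castSucc_le_castSucc_iff.1 hi)

private lemma prod_snoc {k : ℕ} (T : Fin (k + 1) → (Fin (k + 1) → ℕ) → ℝ)
    (hT : ∀ j u u', (∀ i, i ≤ j → u i = u' i) → T j u = T j u') (u : Fin k → ℕ) (v : ℕ) :
    ∏ j, T j (Fin.snoc u v) =
      (∏ j : Fin k, T j.castSucc (Fin.snoc u 0)) * T (Fin.last k) (Fin.snoc u v) := by
  rw [Fin.prod_univ_castSucc]
  congr 1
  exact Finset.prod_congr rfl fun j _ => dep_snoc T hT j u u (fun _ _ => rfl) v 0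

private lemma sum_step {k : ℕ} (N : Fin (k + 1) → ℕ) (T : Fin (k + 1) → (Fin (k + 1) → ℕ) → ℝ)
    (hT : ∀ j u u', (∀ i, i ≤ j → u i = u' i) → T j u = T j u') :
    ∑ u ∈ Fintype.piFinset (fun j => range (N j)), ∏ j, T j u =
      ∑ u ∈ Fintype.piFinset (fun j : Fin k => range (N j.castSucc)),
        (∏ j : Fin k, T j.castSucc (Fin.snoc u 0)) *
          ∑ v ∈ range (N (Fin.last k)), T (Fin.last k) (Function.update (Fin.snoc u 0) (Fin.last k) v) := by
  rw [sum_snoc]
  refine Finset.sum_congr rfl fun u _ => ?_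
  rw [Finset.mul_sum]
  refine Finset.sum_congr rfl fun v _ => ?_
  rw [prod_snoc T hT, Fin.update_snoc_last]

private lemma snoc_lt {k : ℕ} (N : Fin (k + 1) → ℕ) (hN : ∀ j, 1 ≤ N j) (u : Fin k → ℕ)
    (hu : ∀ i : Fin k, u i < N i.castSucc) :
    ∀ i, (Fin.snoc u 0 : Fin (k + 1) → ℕ) i < N i := by
  intro i
  refine Fin.lastCases ?_ (fun i => ?_) i
  · rw [Fin.snoc_last]
    exact hN _
  · rw [Fin.snoc_castSucc]
    exact hu i

private lemma upper : ∀ (k : ℕ) (N : Fin k → ℕ) (T : Fin k → (Fin k → ℕ) → ℝ) (C : Fin k → ℝ),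
    (∀ j, 1 ≤ N j) → (∀ j u, 0 ≤ T j u) → (∀ j u u', (∀ i, i ≤ j → u i = u' i) → T j u = T j u') →
    (∀ j, 0 ≤ C j) →
    (∀ j u, (∀ i, u i < N i) → ∑ v ∈ range (N j), T j (Function.update u j v) ≤ C j) →
    ∑ u ∈ Fintype.piFinset (fun j => range (N j)), ∏ j, T j u ≤ ∏ j, C j := by
  intro k
  induction k with
  | zero =>
    intro N T C _ _ _ _ _
    simp
  | succ k ih =>
    intro N T C hN h0 hT hC hS
    rw [sum_step N T hT, Fin.prod_univ_castSucc (f := C)]
    have h1 := ih (fun j => N j.castSucc) (fun j u => T j.castSucc (Fin.snoc u 0))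
      (fun j => C j.castSucc) (fun j => hN _) (fun j u => h0 _ _)
      (fun j u u' h => dep_snoc T hT j u u' h 0 0) (fun j => hC _) (fun j u hu => by
        have h2 := hS j.castSucc (Fin.snoc u 0) (snoc_lt N hN u hu)
        refine le_trans (le_of_eq ?_) h2
        refine Finset.sum_congr rfl fun v _ => ?_
        show T j.castSucc (Fin.snoc (Function.update u j v) 0) = _
        rw [Fin.snoc_update])
    calc ∑ u ∈ Fintype.piFinset (fun j : Fin k => range (N j.castSucc)),
          (∏ j : Fin k, T j.castSucc (Fin.snoc u 0)) *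
            ∑ v ∈ range (N (Fin.last k)),
              T (Fin.last k) (Function.update (Fin.snoc u 0) (Fin.last k) v)
        ≤ ∑ u ∈ Fintype.piFinset (fun j : Fin k => range (N j.castSucc)),
          (∏ j : Fin k, T j.castSucc (Fin.snoc u 0)) * C (Fin.last k) := by
          refine Finset.sum_le_sum fun u hu => ?_
          refine mul_le_mul_of_nonneg_left ?_ (Finset.prod_nonneg fun j _ => h0 _ _)
          refine hS (Fin.last k) (Fin.snoc u 0) (snoc_lt N hN u fun i => ?_)
          exact Finset.mem_range.1 (Fintype.mem_piFinset.1 hu i)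
      _ = (∑ u ∈ Fintype.piFinset (fun j : Fin k => range (N j.castSucc)),
          ∏ j : Fin k, T j.castSucc (Fin.snoc u 0)) * C (Fin.last k) := by
          rw [Finset.sum_mul]
      _ ≤ (∏ j : Fin k, C j.castSucc) * C (Fin.last k) :=
          mul_le_mul_of_nonneg_right h1 (hC _)

private lemma lower : ∀ (k : ℕ) (N : Fin k → ℕ) (T : Fin k → (Fin k → ℕ) → ℝ) (c : Fin k → ℝ),
    (∀ j, 1 ≤ N j) → (∀ j u, 0 ≤ T j u) → (∀ j u u', (∀ i, i ≤ j → u i = u' i) → T j u = T j u') →
    (∀ j, 0 ≤ c j) →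
    (∀ j u, (∀ i, u i < N i) → (∀ i, i < j → T i u ≠ 0) →
      c j ≤ ∑ v ∈ range (N j), T j (Function.update u j v)) →
    ∏ j, c j ≤ ∑ u ∈ Fintype.piFinset (fun j => range (N j)), ∏ j, T j u := by
  intro k
  induction k with
  | zero =>
    intro N T c _ _ _ _ _
    simp
  | succ k ih =>
    intro N T c hN h0 hT hc hS
    rw [sum_step N T hT, Fin.prod_univ_castSucc (f := c)]
    have h1 := ih (fun j => N j.castSucc) (fun j u => T j.castSucc (Fin.snoc u 0))
      (fun j => c j.castSucc) (fun j => hN _) (fun j u => h0 _ _)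
      (fun j u u' h => dep_snoc T hT j u u' h 0 0) (fun j => hc _) (fun j u hu hne => by
        have h2 := hS j.castSucc (Fin.snoc u 0) (snoc_lt N hN u hu) (fun i => by
          refine Fin.lastCases (fun h => ?_) (fun i' hi => ?_) i
          · exact absurd (lt_trans h (Fin.castSucc_lt_last j)) (lt_irrefl _)
          · exact hne i' (Fin.castSucc_lt_castSucc_iff.1 hi))
        refine le_trans h2 (le_of_eq ?_)
        refine Finset.sum_congr rfl fun v _ => ?_
        show _ = T j.castSucc (Fin.snoc (Function.update u j v) 0)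
        rw [Fin.snoc_update])
    calc (∏ j : Fin k, c j.castSucc) * c (Fin.last k)
        ≤ (∑ u ∈ Fintype.piFinset (fun j : Fin k => range (N j.castSucc)),
          ∏ j : Fin k, T j.castSucc (Fin.snoc u 0)) * c (Fin.last k) :=
          mul_le_mul_of_nonneg_right h1 (hc _)
      _ = ∑ u ∈ Fintype.piFinset (fun j : Fin k => range (N j.castSucc)),
          (∏ j : Fin k, T j.castSucc (Fin.snoc u 0)) * c (Fin.last k) := by
          rw [Finset.sum_mul]
      _ ≤ ∑ u ∈ Fintype.piFinset (fun j : Fin k => range (N j.castSucc)),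
          (∏ j : Fin k, T j.castSucc (Fin.snoc u 0)) *
            ∑ v ∈ range (N (Fin.last k)),
              T (Fin.last k) (Function.update (Fin.snoc u 0) (Fin.last k) v) := by
          refine Finset.sum_le_sum fun u hu => ?_
          rcases eq_or_ne (∏ j : Fin k, T j.castSucc (Fin.snoc u 0)) 0 with h | h
          · rw [h, zero_mul, zero_mul]
          · refine mul_le_mul_of_nonneg_left ?_ (Finset.prod_nonneg fun j _ => h0 _ _)
            refine hS (Fin.last k) (Fin.snoc u 0) (snoc_lt N hN u fun i => ?_) fun i => ?_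
            · exact Finset.mem_range.1 (Fintype.mem_piFinset.1 hu i)
            · refine Fin.lastCases (fun h' => absurd h' (lt_irrefl _)) (fun i' _ => ?_) i
              exact (Finset.prod_ne_zero_iff.1 h) i' (Finset.mem_univ _)

/-- ITE: iterated sums. -/
theorem hIte : Pool.Agent.Helper93.PL.StIte := by
  intro k N T C c hN h0 hT hC hc
  exact ⟨upper k N T C hN h0 hT hC, lower k N T c hN h0 hT hc⟩

end Pool.Agent.Helper66.PL
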